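import Pool.Agent.Helper92.PW.St

namespace Pool.Agent.Helper10.PW

open Pool.Agent.Helper92.PW

/-- The trivial bound for a determinant with columns bounded by `c j`. -/
theorem det_col_le {n : ℕ} (A : Matrix (Fin n) (Fin n) ℝ) (c : Fin n → ℝ)
    (h : ∀ i j, |A i j| ≤ c j) : |A.det| ≤ (n.factorial : ℝ) * ∏ j, c j := by
  rw [Matrix.det_apply]
  calc |∑ σ : Equiv.Perm (Fin n), Equiv.Perm.sign σ • ∏ i, A (σ i) i|
      ≤ ∑ σ : Equiv.Perm (Fin n), |Equiv.Perm.sign σ • ∏ i, A (σ i) i| := Finset.abs_sum_le_sum_abs _ _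
    _ ≤ ∑ σ : Equiv.Perm (Fin n), ∏ j, c j := by
        apply Finset.sum_le_sum
        intro σ _
        have h1 : |Equiv.Perm.sign σ • ∏ i, A (σ i) i| = |∏ i, A (σ i) i| := by
          rcases Int.units_eq_one_or (Equiv.Perm.sign σ) with h2 | h2 <;> rw [h2] <;> simp
        rw [h1, Finset.abs_prod]
        exact Finset.prod_le_prod (fun i _ => abs_nonneg _) (fun i _ => h _ _)
    _ = (n.factorial : ℝ) * ∏ j, c j := by
        rw [Finset.sum_const, Finset.card_univ, Fintype.card_perm, Fintype.card_fin, nsmul_eq_mul]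

/-- The constant matrix. -/
def TT (x y a1 a2 c : ℝ) : Matrix (Fin 6) (Fin 6) ℝ :=
  !![x ^ 2, x * y, y ^ 2, x, y, 1;
     2 * x, y + x * a1, 2 * y * a1, 1, a1, 0;
     1, x * a2 + a1, 2 * y * a2 + a1 ^ 2, 0, a2, 0;
     0, x * c + 1, 2 * y * c + 2 * a1, 0, c, 0;
     0, 0, 1, 0, 0, 0;
     0, x, 2 * y, 0, 1, 0]

theorem det_TT (x y a1 a2 c : ℝ) : (TT x y a1 a2 c).det = 1 := by
  unfold TT
  rw [Matrix.det_succ_column _ 5]
  simp [Fin.sum_univ_succ, Matrix.det_succ_column _ 3, Fin.succAbove, Matrix.submatrix]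
  ring

/-- The small matrix. -/
def NN (a1 a2 c : ℝ) (t u : Fin 6 → ℝ) : Matrix (Fin 6) (Fin 6) ℝ :=
  Matrix.of fun i j : Fin 6 => (![1, t i, t i ^ 2, t i * (u i - a1 * t i), (u i - a1 * t i) ^ 2,
    (u i - a1 * t i) - a2 * t i ^ 2 - c * (t i * (u i - a1 * t i))] : Fin 6 → ℝ) j

theorem NN_mul (x y a1 a2 c : ℝ) (t u : Fin 6 → ℝ) :
    NN a1 a2 c t u * TT x y a1 a2 c =
    Matrix.of fun i j : Fin 6 => (![(x + t i) ^ 2, (x + t i) * (y + u i), (y + u i) ^ 2, x + t i, y + u i, 1]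
      : Fin 6 → ℝ) j := by
  ext i j
  rw [Matrix.mul_apply]
  fin_cases j <;> simp [NN, TT, Fin.sum_univ_succ] <;> ring

theorem hDT6 : StDT6 := by
  intro x y a1 a2 c b1 b2 b3 b4 b5 t u _ _ _ _ _ h1 h2 h3 h4 h5
  rw [← NN_mul x y a1 a2 c t u, Matrix.det_mul, det_TT, mul_one]
  refine (det_col_le (NN a1 a2 c t u) ![1, b1, b2, b3, b4, b5] ?_).trans (le_of_eq ?_)
  · intro i j
    fin_cases j
    · simp [NN]
    · simpa [NN] using h1 i
    · simpa [NN] using h2 i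
    · simpa [NN, abs_mul] using h3 i
    · simpa [NN] using h4 i
    · simpa [NN] using h5 i
  · simp [Fin.prod_univ_succ, Nat.factorial]
    ring

end Pool.Agent.Helper10.PW
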